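import Pool.Agent.AT5.Stmts1
import Pool.Agent.Helper62_AT3.CO2
import Pool.Agent.Helper25_K9.PRG
import Pool.Agent.Helper25_K9.ROT
import Pool.Agent.Helper94_PP.LemQ

/-!
# Squad AT5, row KER: the function `s ↦ χ(w s b)` on the regular elements
-/

open scoped BigOperators

noncomputable section

namespace Pool.Agent.PP.T5.H45

open Pool.Agent.Helper51_AWC Pool.Agent.Helper79_WRA Pool.Agent.PP Pool.Agent.PP.KF
open Pool.Agent.PP.K9 Pool.Agent.PP.K9.H97 Pool.Agent.PP.H75 Pool.Agent.PP.T3 Pool.Agent.PP.T2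

attribute [local instance] Ideal.Quotient.field

/-- the convolution of an irreducible character with a class function -/
theorem conv_cl {H : Type} [Group H] [Fintype H] {κ : H → ℂ} (hκ : κ ∈ Irr H) {f : H → ℂ}
    (hf : ∀ x y, f (y * x * y⁻¹) = f x) (s : H) :
    κ 1 * ∑ c, κ c⁻¹ * f (s * c) = κ s * ∑ c, κ c⁻¹ * f c := by
  have hg : ∀ x y : H, f (y * x * y⁻¹)⁻¹ = f x⁻¹ := by
    intro x y
    rw [show (y * x * y⁻¹)⁻¹ = y * x⁻¹ * y⁻¹ by group, hf]
  have h1 := H50.eigen (a := fun t => f t⁻¹) hg hκ s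
  have h2 : ∑ c, κ c⁻¹ * f (s * c) = ∑ t, f t⁻¹ * κ (t * s) := by
    refine Fintype.sum_equiv ((Equiv.mulLeft s).trans (Equiv.inv H)) _ _ fun c => ?_
    rw [Equiv.trans_apply, Equiv.coe_mulLeft, Equiv.inv_apply, inv_inv, mul_inv_rev,
      inv_mul_cancel_right, mul_comm]
  have h3 : ∑ c, κ c⁻¹ * f c = ∑ t, f t⁻¹ * κ t := by
    refine Fintype.sum_equiv (Equiv.inv H) _ _ fun c => ?_
    rw [Equiv.inv_apply, inv_inv, mul_comm]
  have h4 : κ 1 ≠ 0 := irr_one_ne hκ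
  rw [h2, h3, h1]
  unfold H50.om
  field_simp

theorem ker : KerStmt := by
  intro ℓ hℓ M _ hM G _ _ u w hw b hb s hs hsr χ hχ
  classical
  have := Fintype.ofFinite G
  have := Fintype.ofFinite (Cu u)
  set C : Subgroup G := Cu u with hC
  set b' : C → FF M := fun t => b t with hb'
  set S := (K9.H25.irrE_finite M b').toFinset with hS
  have hmem : ∀ κ, κ ∈ S ↔ κ ∈ IrrE M b' := fun κ => Set.Finite.mem_toFinset _
  set s' : C := ⟨s, hs⟩ with hs'
  set f : C → ℂ := fun t => χ (w * (t : G)) with hf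
  have hfc : ∀ x y : C, f (y * x * y⁻¹) = f x := by
    intro x y
    simp only [hf]
    have h1 : w * ((y * x * y⁻¹ : C) : G) = (y : G) * (w * (x : G)) * (y : G)⁻¹ := by
      rw [Subgroup.coe_mul, Subgroup.coe_mul, Subgroup.coe_inv]
      have h2 := hw y y.2
      calc w * ((y : G) * x * (y : G)⁻¹) = (w * y) * x * (y : G)⁻¹ := by group
        _ = (y * w) * x * (y : G)⁻¹ := by rw [h2]
        _ = _ := by group
    rw [h1, irr_conj hχ]
  -- the left side
  have h1 : gv M C (w * s) b χ =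
      (Nat.card C : ℂ)⁻¹ * ∑ c : C, (∑ κ ∈ S, κ s' * κ c⁻¹) * f c := by
    unfold gv gbv
    rw [finsum_eq_sum_of_fintype]
    have h2 : ∀ c : C, eh M b' c * χ (w * s * (c : G)) =
        (Nat.card C : ℂ)⁻¹ * ∑ κ ∈ S, κ 1 * (κ c⁻¹ * f (s' * c)) := by
      intro c
      rw [K9.H25.eh_eq, Nat.card_eq_fintype_card, mul_assoc, Finset.sum_mul]
      congr 1
      refine Finset.sum_congr rfl fun κ _ => ?_
      simp only [hf, hs', Subgroup.coe_mul]
      rw [mul_assoc, mul_assoc w]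
    rw [Finset.sum_congr rfl fun c _ => h2 c, ← Finset.mul_sum, Finset.sum_comm]
    congr 1
    have h3 : ∀ κ ∈ S, ∑ c : C, κ 1 * (κ c⁻¹ * f (s' * c)) = ∑ c : C, κ s' * κ c⁻¹ * f c := by
      intro κ hκ
      rw [← Finset.mul_sum, conv_cl ((hmem κ).1 hκ).1 hfc, Finset.mul_sum]
      refine Finset.sum_congr rfl fun c _ => ?_
      rw [mul_assoc]
    rw [Finset.sum_congr rfl h3, Finset.sum_comm]
    refine Finset.sum_congr rfl fun c _ => ?_
    rw [Finset.sum_mul]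
  -- the kernel
  have h2 : ∀ c : C, kr M C b s c = ∑ κ ∈ S, κ s' * κ c⁻¹ := by
    intro c
    unfold kr
    rw [finsum_mem_eq_finite_toFinset_sum _ (K9.H25.irrE_finite M b')]
    refine Finset.sum_congr rfl fun κ hκ => ?_
    have e1 : H75.ext0 C κ s = κ s' := ext0_apply C κ s'
    rw [e1, ext0_apply, H94.irr_star ((hmem κ).1 hκ).1]
  have h3 : ∀ c : C, ¬ Reg ℓ c → ∑ κ ∈ S, κ s' * κ c⁻¹ = 0 := by
    intro c hc
    have hsr' : Reg ℓ s' := by
      unfold Reg at hsr ⊢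
      rwa [← Subgroup.orderOf_coe]
    have h4 := T3.H62.wbo_ ℓ M hM C b' hb.idem s'⁻¹ c⁻¹ (K9.H25.reg_inv.2 hsr')
      (fun h => hc (K9.H25.reg_inv.1 h))
    rw [finsum_mem_eq_finite_toFinset_sum _ (K9.H25.irrE_finite M b')] at h4
    simpa using h4
  rw [h1]
  congr 1
  have h4 : ∑ᶠ (c : G) (_ : c ∈ C ∧ Reg ℓ c), kr M C b s c * χ (w * c) =
      ∑ᶠ c : G, (if c ∈ C ∧ Reg ℓ c then kr M C b s c * χ (w * c) else 0) :=
    finsum_congr fun c => finsum_eq_if
  rw [h4, H75.sum_sub C _ (fun x hx => if_neg fun h => hx h.1), finsum_eq_sum_of_fintype]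
  refine Finset.sum_congr rfl fun c _ => ?_
  by_cases hc : Reg ℓ (c : G)
  · rw [if_pos ⟨c.2, hc⟩, h2]
  · rw [if_neg (fun h => hc h.2), h3 c (fun h => hc (T3.H62.reg_coe h)), zero_mul]

end Pool.Agent.PP.T5.H45
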